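import Pool.Agent.helper7.PQ.Spec

/-!
# Project pq (MP_ebc808_nt), row pq:EVK (a value different from `r`)
-/

set_option autoImplicit false

open Finset PowerSeries Pool.Agent.EP

namespace Pool.Agent.PQ

theorem EVK_ac (N : ℕ) (h : N % 24 = 23) : ac (N : ℤ) = pp ((N + 1) / 24) := by
  unfold ac
  rw [if_pos (by omega)]
  have h2 : (((N : ℤ) + 1) / 24).toNat = (N + 1) / 24 := by omega
  rw [h2]

theorem EVK_B (b : ℕ) (hb : b % 2 = 1) (hb3 : 3 ≤ b) : 2 ^ b % 24 = 8 := by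
  obtain ⟨c, rfl⟩ : ∃ c, b = 2 * c + 3 := ⟨(b - 3) / 2, by omega⟩
  rw [pow_add, pow_mul]
  have h1 : (2 ^ 2) ^ c % 3 = 1 := by
    rw [Nat.pow_mod]
    norm_num
  omega

theorem EVK_u (u : ℕ) (h : u.Coprime 6) : u ^ 2 % 24 = 1 := by
  have h2 : u % 2 ≠ 0 := by
    intro h3
    have h4 : 2 ∣ Nat.gcd u 6 := Nat.dvd_gcd (Nat.dvd_of_mod_eq_zero h3) (by norm_num)
    rw [Nat.Coprime.gcd_eq_one h] at h4
    omega
  have h3 : u % 3 ≠ 0 := by
    intro h3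
    have h4 : 3 ∣ Nat.gcd u 6 := Nat.dvd_gcd (Nat.dvd_of_mod_eq_zero h3) (by norm_num)
    rw [Nat.Coprime.gcd_eq_one h] at h4
    omega
  have key : ∀ x : ℕ, x < 24 → x % 2 ≠ 0 → x % 3 ≠ 0 → x ^ 2 % 24 = 1 := by decide
  rw [Nat.pow_mod]
  exact key (u % 24) (Nat.mod_lt _ (by norm_num)) (by omega) (by omega)

theorem EVK_Bu (b u : ℕ) (hb : b % 2 = 1) (hb3 : 3 ≤ b) (h : u.Coprime 6) : (2 ^ b * u ^ 2) % 24 = 8 := by
  rw [Nat.mul_mod, EVK_B b hb hb3, EVK_u u h]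

theorem EVK_mod (k M w : ℕ) (hk : k % 3 = 1) (hM : M % 3 = 1) (hkM : (k * M) % 8 = 7) (hw : w % 24 = 8)
    (hle : w ≤ M) : (k * (M - w)) % 24 = 23 := by
  have h1 : k * (M - w) + k * w = k * M := by
    rw [← Nat.mul_add, Nat.sub_add_cancel hle]
  have h2 : (k * w) % 24 = 8 := by
    obtain ⟨c, hc⟩ : ∃ c, w = 24 * c + 8 := ⟨w / 24, by omega⟩
    obtain ⟨d, hd⟩ : ∃ d, k = 3 * d + 1 := ⟨k / 3, by omega⟩
    rw [hc, hd]
    have : (3 * d + 1) * (24 * c + 8) = 24 * ((3 * d + 1) * c + d) + 8 := by ring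
    rw [this]
    omega
  have h3 : (k * M) % 3 = 1 := by rw [Nat.mul_mod, hk, hM]
  generalize k * (M - w) = a at *
  generalize k * w = c at *
  generalize k * M = d at *
  omega

theorem EVK (hSUMP : SUMP_stmt) : EVK_stmt := by
  intro b Q₁ Q₂ P P' r hb hb3 hP hP' hk6 hM3 hkM8 hexc hc1 hc2 hRB hsum
  have hM2 : (Q₂ * P') % 2 = 1 := by
    by_contra hne
    have h1 : (Q₂ * P') % 2 = 0 := by omega
    have h2 : (Q₁ * P * (Q₂ * P')) % 2 = 0 := by rw [Nat.mul_mod, h1, mul_zero]; rfl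
    omega
  have h := hSUMP b Q₁ Q₂ P P' hb hP hP' hk6 hM2 hexc hc1 hc2
  rw [hRB] at h
  by_contra hcon
  push Not at hcon
  apply hsum
  rw [← h]
  have hk3 : (Q₁ * P) % 3 = 1 := by omega
  congr 1
  · apply Finset.sum_congr rfl
    intro u hu
    unfold uB at hu
    rw [Finset.mem_filter] at hu
    obtain ⟨-, hu6, hle⟩ := hu
    have hw := EVK_Bu b u hb hb3 hu6
    have hmod := EVK_mod (Q₁ * P) (Q₂ * P') (2 ^ b * u ^ 2) hk3 hM3 hkM8 hw hle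
    rw [EVK_ac _ hmod]
    refine (hcon _ ⟨u, Or.inl ⟨by omega, ?_⟩⟩).symm
    omega
  · apply Finset.sum_congr rfl
    intro u hu
    unfold uB at hu
    rw [Finset.mem_filter] at hu
    obtain ⟨-, hu6, hle⟩ := hu
    have hw := EVK_Bu b u hb hb3 hu6
    have hmod := EVK_mod (Q₂ * P') (Q₁ * P) (2 ^ b * u ^ 2) hM3 hk3 (by rw [mul_comm]; exact hkM8) hw hle
    rw [mul_comm] at hmod
    rw [EVK_ac _ hmod]
    refine (hcon _ ⟨u, Or.inr ⟨by omega, ?_⟩⟩).symm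
    omega

end Pool.Agent.PQ
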